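import Mathlib

/-!
# Skew pair families for the Hamming distance have length at most `2^(t+1)`

Let `m = t + 1`. Over a ring of characteristic two consider the group algebra of `(ZMod 2)^m` and
put `ω_k = Σ_j w_{kj} (1 + g_j)`, where `g_1, …, g_m` are the standard generators. Then
`ω_k² = 0`, so with `Φ(a) = Π_k (1 + λ_{k, a_k} ω_k)` one has
`Φ(a) Φ(b) = Π_k (1 + (λ_{k, a_k} + λ_{k, b_k}) ω_k)`, and the factors with `a_k = b_k` are `1`.
The coefficient of `Φ(a) Φ(b)` at `(1, …, 1)` is zero if `dist(a,b) ≤ t`, and it is a nonzero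
polynomial in the `λ`s and `w`s if `dist(a,b) ≥ t + 1`. It is a bilinear form in `Φ(a)` and `Φ(b)`,
which have `2^m` coordinates; the triangular shape of the matrix of these coefficients for a skew
family gives the bound.
-/

namespace Pool.Agent.Results.MP_41e757_co.SkewHamming

open Finset

universe u v

/-- The Hamming distance of two strings of length `n`: the number of coordinates in which they
differ. -/
noncomputable def hdist {X : Type u} {n : ℕ} (p q : Fin n → X) : ℕ :=
  by classical exact (univ.filter fun k => p k ≠ q k).card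

/-- There is a skew `t`-family of length `m` over the alphabet `X`: strings `a i`, `b i` of a common
length `n ≥ t + 1` with `dist(a i, b i) ≥ t + 1` and `dist(a i, b j) ≤ t` for `i < j`. -/
def HasSkewFamily (t : ℕ) (X : Type u) (m : ℕ) : Prop :=
  ∃ n : ℕ, t + 1 ≤ n ∧ ∃ a b : Fin m → Fin n → X,
    (∀ i, t + 1 ≤ hdist (a i) (b i)) ∧ ∀ i j, i < j → hdist (a i) (b j) ≤ t

section algebra

variable {R : Type u} [CommRing R] {m : ℕ}

/-- The group algebra of `(ZMod 2)^m`. -/
abbrev Alg (R : Type u) [CommRing R] (m : ℕ) : Type u := AddMonoidAlgebra R (Fin m → ZMod 2)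

/-- The generator `g_j`. -/
noncomputable def gen (R : Type u) [CommRing R] {m : ℕ} (j : Fin m) : Alg R m :=
  AddMonoidAlgebra.single (Pi.single j 1) 1

/-- The scalars. -/
noncomputable def cst (m : ℕ) (c : R) : Alg R m := AddMonoidAlgebra.single 0 c

/-- Elements supported on vectors with at most `d` nonzero coordinates. -/
def Low (d : ℕ) (f : Alg R m) : Prop := ∀ v, f.coeff v ≠ 0 → hammingNorm v ≤ d

lemma low_mono {d e : ℕ} (h : d ≤ e) {f : Alg R m} (hf : Low d f) : Low e f :=
  fun v hv => le_trans (hf v hv) h

lemma low_mul {d e : ℕ} {f g : Alg R m} (hf : Low d f) (hg : Low e g) : Low (d + e) (f * g) := by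
  classical
  intro v hv
  have h1 := AddMonoidAlgebra.support_coeff_mul_subset f g (Finsupp.mem_support_iff.mpr hv)
  rw [Finset.mem_add] at h1
  obtain ⟨x, hx, y, hy, rfl⟩ := h1
  have h2 := hf x (Finsupp.mem_support_iff.mp hx)
  have h3 := hg y (Finsupp.mem_support_iff.mp hy)
  have h4 : hammingNorm (x + y) ≤ hammingNorm x + hammingNorm y := by
    have h5 := hammingDist_triangle (x + y) y 0
    have h6 : hammingDist (x + y) y = hammingNorm x := by
      unfold hammingDist hammingNorm
      congr 1
      ext i
      simp
    have h7 : hammingDist y 0 = hammingNorm y := hammingDist_zero_right y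
    have h8 : hammingDist (x + y) 0 = hammingNorm (x + y) := hammingDist_zero_right _
    omega
  omega

lemma low_add {d : ℕ} {f g : Alg R m} (hf : Low d f) (hg : Low d g) : Low d (f + g) := by
  intro v hv
  by_cases h : f.coeff v = 0
  · apply hg v
    intro h'
    apply hv
    rw [AddMonoidAlgebra.coeff_add, Finsupp.add_apply, h, h', add_zero]
  · exact hf v h

lemma low_single {d : ℕ} {v : Fin m → ZMod 2} (hv : hammingNorm v ≤ d) (c : R) :
    Low d (AddMonoidAlgebra.single v c : Alg R m) := by
  intro u hu
  by_cases h : v = u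
  · exact h ▸ hv
  · exact absurd (by simp [AddMonoidAlgebra.coeff_single, h]) hu

lemma low_zero (d : ℕ) : Low d (0 : Alg R m) := by
  intro v hv
  exact absurd (by simp) hv

lemma low_one (d : ℕ) : Low d (1 : Alg R m) := by
  rw [AddMonoidAlgebra.one_def]
  exact low_single (by simp) 1

lemma low_sum {ι : Type} (s : Finset ι) {d : ℕ} (f : ι → Alg R m) (hf : ∀ i ∈ s, Low d (f i)) :
    Low d (∑ i ∈ s, f i) := by
  classical
  induction s using Finset.induction_on with
  | empty => simpa using low_zero d
  | insert a s ha ih =>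
    rw [sum_insert ha]
    exact low_add (hf a (mem_insert_self _ _)) (ih fun i hi => hf i (mem_insert_of_mem hi))

lemma low_prod {ι : Type} (s : Finset ι) (f : ι → Alg R m) (hf : ∀ i ∈ s, Low 1 (f i)) :
    Low s.card (∏ i ∈ s, f i) := by
  classical
  induction s using Finset.induction_on with
  | empty => simpa using low_one 0
  | insert a s ha ih =>
    rw [prod_insert ha, card_insert_of_notMem ha, add_comm]
    exact low_mul (hf a (mem_insert_self _ _)) (ih fun i hi => hf i (mem_insert_of_mem hi))

lemma low_gen (j : Fin m) : Low 1 (gen R j) := by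
  apply low_single
  unfold hammingNorm
  calc _ ≤ ({j} : Finset (Fin m)).card := by
        apply card_le_card
        intro i hi
        by_contra h
        simp only [mem_singleton] at h
        simp [Pi.single_apply, h] at hi
    _ = 1 := card_singleton j

lemma low_cst (c : R) : Low 0 (cst m c) := low_single (by simp) c

/-- The element `ω = Σ_j w_j (1 + g_j)`. -/
noncomputable def omg (w : Fin m → R) : Alg R m := ∑ j, cst m (w j) * (1 + gen R j)

lemma low_omg (w : Fin m → R) : Low 1 (omg w) := by
  apply low_sum
  intro j _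
  have := low_mul (low_cst (m := m) (w j)) (low_add (low_one 1) (low_gen (R := R) j))
  simpa using this

/-- The factor `1 + l ω`. -/
noncomputable def fac (l : R) (w : Fin m → R) : Alg R m := 1 + cst m l * omg w

lemma low_fac (l : R) (w : Fin m → R) : Low 1 (fac l w) := by
  have := low_mul (low_cst (m := m) l) (low_omg w)
  exact low_add (low_one 1) (by simpa using this)

lemma two_alg [CharP R 2] (f : Alg R m) : f + f = 0 := by
  ext v
  simp only [AddMonoidAlgebra.coeff_add, Finsupp.add_apply]
  rw [CharTwo.add_self_eq_zero]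
  simp

lemma gen_sq (j : Fin m) : gen R j * gen R j = 1 := by
  unfold gen
  rw [AddMonoidAlgebra.single_mul_single, AddMonoidAlgebra.one_def]
  congr 1
  · rw [← Pi.single_add]
    have : (1 : ZMod 2) + 1 = 0 := by decide
    rw [this, Pi.single_zero]
  · ring

lemma omg_sq [CharP R 2] (w : Fin m → R) : omg w * omg w = 0 := by
  classical
  unfold omg
  have key : ∀ s : Finset (Fin m), (∑ j ∈ s, cst m (w j) * (1 + gen R j)) *
      (∑ j ∈ s, cst m (w j) * (1 + gen R j)) = 0 := by
    intro s
    induction s using Finset.induction_on with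
    | empty => simp
    | insert a s ha ih =>
      rw [sum_insert ha]
      set x := cst m (w a) * (1 + gen R a)
      set y := ∑ j ∈ s, cst m (w j) * (1 + gen R j)
      have hx : x * x = 0 := by
        have h1 := gen_sq (R := R) a
        have h2 := two_alg (1 + gen R a)
        calc x * x = cst m (w a) * cst m (w a) *
              (1 + gen R a + gen R a + gen R a * gen R a) := by
              simp only [x]; ring
          _ = cst m (w a) * cst m (w a) * ((1 + gen R a) + (1 + gen R a)) := by rw [h1]; ring
          _ = 0 := by rw [h2, mul_zero]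
      calc (x + y) * (x + y) = x * x + y * y + (x * y + x * y) := by ring
        _ = 0 := by rw [hx, ih, two_alg (x * y)]; simp
  exact key univ

lemma cst_add (c d : R) : cst m (c + d) = cst m c + cst m d := by
  unfold cst
  rw [AddMonoidAlgebra.single_add]

lemma fac_mul [CharP R 2] (l l' : R) (w : Fin m → R) : fac l w * fac l' w = fac (l + l') w := by
  unfold fac
  have h := omg_sq w
  rw [cst_add]
  calc (1 + cst m l * omg w) * (1 + cst m l' * omg w)
      = 1 + (cst m l + cst m l') * omg w + cst m l * cst m l' * (omg w * omg w) := by ring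
    _ = 1 + (cst m l + cst m l') * omg w := by rw [h]; ring

lemma fac_zero (w : Fin m → R) : fac 0 w = 1 := by
  unfold fac cst
  simp

/-- The all-ones vector. -/
def ones (m : ℕ) : Fin m → ZMod 2 := fun _ => 1

lemma norm_ones : hammingNorm (ones m) = m := by
  unfold hammingNorm ones
  simp

lemma coeff_ones_of_low {d : ℕ} (h : d < m) {f : Alg R m} (hf : Low d f) :
    f.coeff (ones m) = 0 := by
  by_contra h1
  have := hf _ h1
  rw [norm_ones] at this
  omega

variable {S : Type v} [CommRing S]

lemma map_cst (φ : R →+* S) (c : R) :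
    AddMonoidAlgebra.mapRingHom (Fin m → ZMod 2) φ (cst m c) = cst m (φ c) := by
  unfold cst
  exact AddMonoidAlgebra.mapRingHom_single φ _ _

lemma map_gen (φ : R →+* S) (j : Fin m) :
    AddMonoidAlgebra.mapRingHom (Fin m → ZMod 2) φ (gen R j) = gen S j := by
  unfold gen
  rw [AddMonoidAlgebra.mapRingHom_single, map_one]

lemma map_fac (φ : R →+* S) (l : R) (w : Fin m → R) :
    AddMonoidAlgebra.mapRingHom (Fin m → ZMod 2) φ (fac l w) = fac (φ l) (fun j => φ (w j)) := by
  unfold fac omg
  rw [map_add, map_one, map_mul, map_cst, map_sum]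
  simp only [map_mul, map_cst, map_add, map_one, map_gen]

lemma prod_gen : ∏ j : Fin m, gen R j = AddMonoidAlgebra.single (ones m) 1 := by
  unfold gen
  rw [AddMonoidAlgebra.prod_single]
  congr 1
  · ext k
    simp [ones, Finset.sum_apply, Pi.single_apply]
  · simp

end algebra

section main

variable {X : Type u} {n m : ℕ}

/-- The variables. -/
abbrev Vars (X : Type u) (n m : ℕ) : Type u := (Fin n × X) ⊕ (Fin n × Fin m)

/-- The polynomial ring. -/
abbrev Pol (X : Type u) (n m : ℕ) : Type u := MvPolynomial (Vars X n m) (ZMod 2)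

/-- The element `Φ(a)`. -/
noncomputable def Phi (m : ℕ) (a : Fin n → X) : Alg (Pol X n m) m :=
  ∏ k, fac (MvPolynomial.X (Sum.inl (k, a k)) : Pol X n m)
    (fun j => MvPolynomial.X (Sum.inr (k, j)))

lemma phi_mul (a b : Fin n → X) : Phi m a * Phi m b =
    ∏ k, fac ((MvPolynomial.X (Sum.inl (k, a k)) : Pol X n m) + MvPolynomial.X (Sum.inl (k, b k)))
      (fun j => MvPolynomial.X (Sum.inr (k, j))) := by
  unfold Phi
  rw [← prod_mul_distrib]
  exact prod_congr rfl fun k _ => fac_mul _ _ _

lemma coeff_small (a b : Fin n → X) (h : hdist a b < m) :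
    (Phi m a * Phi m b).coeff (ones m) = 0 := by
  classical
  rw [phi_mul]
  have h1 : ∏ k, fac ((MvPolynomial.X (Sum.inl (k, a k)) : Pol X n m) +
        MvPolynomial.X (Sum.inl (k, b k))) (fun j => MvPolynomial.X (Sum.inr (k, j))) =
      ∏ k ∈ univ.filter (fun k => a k ≠ b k), fac ((MvPolynomial.X (Sum.inl (k, a k)) : Pol X n m) +
        MvPolynomial.X (Sum.inl (k, b k))) (fun j => MvPolynomial.X (Sum.inr (k, j))) := by
    symm
    apply prod_subset (filter_subset _ _)
    intro k _ hk
    have hk' : a k = b k := by
      by_contra h2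
      exact hk (mem_filter.mpr ⟨mem_univ k, h2⟩)
    rw [hk', CharTwo.add_self_eq_zero, fac_zero]
  rw [h1]
  refine coeff_ones_of_low ?_ (low_prod _ _ fun k _ => low_fac _ _)
  have h3 : hdist a b = (univ.filter fun k => a k ≠ b k).card := by
    unfold hdist; congr
  omega

lemma coeff_large (a b : Fin n → X) (h : m ≤ hdist a b) :
    (Phi m a * Phi m b).coeff (ones m) ≠ 0 := by
  classical
  have h3 : hdist a b = (univ.filter fun k => a k ≠ b k).card := by
    unfold hdist; congr
  rw [h3] at h
  obtain ⟨J, hJ, hJc⟩ := exists_subset_card_eq h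
  -- enumerate `J`
  let e : Fin m ≃ J := (J.equivFinOfCardEq hJc).symm
  let val : Vars X n m → ZMod 2 := Sum.elim (fun p => if p.2 = a p.1 then 1 else 0)
    (fun p => if ((e p.2 : J) : Fin n) = p.1 then 1 else 0)
  let φ : Pol X n m →+* ZMod 2 := MvPolynomial.eval val
  intro h0
  have h1 : (AddMonoidAlgebra.mapRingHom (Fin m → ZMod 2) φ (Phi m a * Phi m b)).coeff (ones m)
      = 0 := by
    rw [AddMonoidAlgebra.coeff_mapRingHom, h0, map_zero]
  rw [phi_mul, map_prod] at h1
  have h2 : ∀ k : Fin n, AddMonoidAlgebra.mapRingHom (Fin m → ZMod 2) φ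
      (fac ((MvPolynomial.X (Sum.inl (k, a k)) : Pol X n m) + MvPolynomial.X (Sum.inl (k, b k)))
      (fun j => MvPolynomial.X (Sum.inr (k, j)))) =
      if hk : k ∈ J then gen (ZMod 2) (e.symm ⟨k, hk⟩) else 1 := by
    intro k
    rw [map_fac, map_add]
    have hA : φ (MvPolynomial.X (Sum.inl (k, a k))) = 1 := by
      simp [φ, val]
    have hC : ∀ j, φ (MvPolynomial.X (Sum.inr (k, j))) =
        if ((e j : J) : Fin n) = k then 1 else 0 := by
      intro j
      simp [φ, val]
    simp only [hC, hA]
    split_ifs with hk
    · have hB : φ (MvPolynomial.X (Sum.inl (k, b k))) = 0 := by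
        have := (mem_filter.mp (hJ hk)).2
        simp [φ, val, Ne.symm this]
      rw [hB, add_zero]
      unfold fac omg
      rw [Finset.sum_eq_single (e.symm ⟨k, hk⟩)]
      · have : ((e (e.symm ⟨k, hk⟩) : J) : Fin n) = k := by simp
        beta_reduce
        rw [if_pos this]
        have h4 : cst m (1 : ZMod 2) = 1 := by
          unfold cst
          rw [AddMonoidAlgebra.one_def]
        rw [h4, one_mul, one_mul, ← add_assoc, two_alg, zero_add]
      · intro j _ hj
        have : ¬ ((e j : J) : Fin n) = k := by
          intro h5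
          apply hj
          rw [Equiv.eq_symm_apply]
          exact Subtype.ext h5
        beta_reduce
        rw [if_neg this]
        unfold cst
        simp
      · intro h5
        exact absurd (mem_univ _) h5
    · have h6 : ∀ j, ¬ ((e j : J) : Fin n) = k := by
        intro j hj
        apply hk
        rw [← hj]
        exact (e j).2
      simp only [h6, if_false]
      unfold fac omg
      have h4 : cst m (0 : ZMod 2) = 0 := by
        unfold cst
        simp
      simp [h4]
  rw [prod_congr rfl fun k _ => h2 k] at h1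
  have h3 : (∏ k : Fin n, if hk : k ∈ J then gen (ZMod 2) (e.symm ⟨k, hk⟩) else 1) =
      ∏ j : Fin m, gen (ZMod 2) j := by
    rw [Finset.prod_dite]
    simp only [prod_const_one, mul_one]
    rw [← e.symm.prod_comp]
    refine Finset.prod_bij' (fun x _ => (⟨x.1, (mem_filter.mp x.2).2⟩ : J))
      (fun x _ => ⟨x.1, mem_filter.mpr ⟨mem_univ _, x.2⟩⟩) ?_ ?_ ?_ ?_ ?_ <;> simp
  rw [h3, prod_gen] at h1
  simp [AddMonoidAlgebra.coeff_single] at h1

/-- A skew family has at most `2^(t+1)` pairs. -/
theorem upper {t N : ℕ} (h : HasSkewFamily t X N) : N ≤ 2 ^ (t + 1) := by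
  classical
  obtain ⟨n, -, a, b, h1, h2⟩ := h
  set m := t + 1 with hm
  let K := FractionRing (Pol X n m)
  let ψ : Pol X n m →+* K := algebraMap _ _
  have hψ : Function.Injective ψ := IsFractionRing.injective _ _
  let U : Matrix (Fin N) (Fin m → ZMod 2) K := fun i v => ψ ((Phi m (a i)).coeff v)
  let V : Matrix (Fin m → ZMod 2) (Fin N) K := fun v j =>
    ψ ((AddMonoidAlgebra.single v 1 * Phi m (b j)).coeff (ones m))
  have hUV : ∀ i j, (U * V) i j = ψ ((Phi m (a i) * Phi m (b j)).coeff (ones m)) := by
    intro i j
    rw [Matrix.mul_apply]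
    simp only [U, V]
    simp_rw [← map_mul]
    rw [← map_sum]
    congr 1
    have h3 : Phi m (a i) = ∑ v, cst m ((Phi m (a i)).coeff v) * AddMonoidAlgebra.single v 1 := by
      ext u
      rw [AddMonoidAlgebra.coeff_sum]
      unfold cst
      simp [AddMonoidAlgebra.single_mul_single, AddMonoidAlgebra.coeff_single]
    conv_rhs => rw [h3, sum_mul, AddMonoidAlgebra.coeff_sum]
    rw [Finsupp.finsetSum_apply]
    refine sum_congr rfl fun v _ => ?_
    rw [mul_assoc]
    unfold cst
    rw [AddMonoidAlgebra.coeff_single_zero_mul]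
  have htri : (U * V).BlockTriangular OrderDual.toDual := by
    intro i j hij
    rw [hUV, coeff_small _ _ (by have := h2 i j hij; omega), map_zero]
  have hdet : (U * V).det ≠ 0 := by
    rw [Matrix.det_of_isLowerTriangular _ htri]
    refine prod_ne_zero_iff.mpr fun i _ => ?_
    rw [hUV]
    intro h0
    exact coeff_large _ _ (h1 i) (hψ (by rw [h0, map_zero]))
  have hrank : (U * V).rank = N := by
    rw [Matrix.rank_of_isUnit _ ((Matrix.isUnit_iff_isUnit_det _).mpr hdet.isUnit),
      Fintype.card_fin]
  calc N = (U * V).rank := hrank.symm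
    _ ≤ U.rank := Matrix.rank_mul_le_left _ _
    _ ≤ Fintype.card (Fin m → ZMod 2) := Matrix.rank_le_card_width _
    _ = 2 ^ (t + 1) := by rw [Fintype.card_fun, ZMod.card, Fintype.card_fin]

/-- The well-known family of length `2^(t+1)`. -/
theorem lower (t : ℕ) [Nontrivial X] : HasSkewFamily t X (2 ^ (t + 1)) := by
  classical
  obtain ⟨x, y, hxy⟩ := exists_pair_ne X
  let e : Fin (2 ^ (t + 1)) ≃ (Fin (t + 1) → Bool) := Fintype.equivOfCardEq (by simp)
  refine ⟨t + 1, le_rfl, fun i k => if e i k then x else y, fun i k => if e i k then y else x,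
    ?_, ?_⟩
  · intro i
    have h3 : (univ.filter fun k : Fin (t + 1) =>
        (if e i k = true then x else y) ≠ (if e i k = true then y else x)) = univ := by
      ext k
      by_cases h : e i k = true <;> simp [h, hxy, hxy.symm]
    have h4 : hdist (fun k => if e i k = true then x else y)
        (fun k => if e i k = true then y else x) = (univ.filter fun k : Fin (t + 1) =>
        (if e i k = true then x else y) ≠ (if e i k = true then y else x)).card := by
      unfold hdist; congr
    rw [h4, h3, card_univ, Fintype.card_fin]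
  · intro i j hij
    have hne : e i ≠ e j := fun h => hij.ne (e.injective h)
    obtain ⟨k, hk⟩ := Function.ne_iff.mp hne
    have h3 : (univ.filter fun k : Fin (t + 1) =>
        (if e i k = true then x else y) ≠ (if e j k = true then y else x)) ⊂ univ := by
      rw [filter_ssubset]
      refine ⟨k, mem_univ k, ?_⟩
      cases h1 : e i k <;> cases h2 : e j k <;> simp_all
    have h4 : hdist (fun k => if e i k = true then x else y)
        (fun k => if e j k = true then y else x) = (univ.filter fun k : Fin (t + 1) =>
        (if e i k = true then x else y) ≠ (if e j k = true then y else x)).card := by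
      unfold hdist; congr
    have h5 := card_lt_card h3
    rw [card_univ, Fintype.card_fin] at h5
    rw [h4]
    omega

/-- For every `t ≥ 0` and every alphabet `X` with at least two elements, the largest length of a
skew `t`-family over `X` is exactly `2^(t+1)`. -/
theorem result (t : ℕ) (X : Type u) [Nontrivial X] :
    IsGreatest {N : ℕ | HasSkewFamily t X N} (2 ^ (t + 1)) :=
  ⟨lower t, fun _ hN => upper hN⟩

end main

end Pool.Agent.Results.MP_41e757_co.SkewHamming
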